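import Pool.Agent.MJW.Defs

/-!
Basic rules of the word model.
-/

namespace Pool.Agent.MJW

open MvPolynomial Pool.Agent.MJR

set_option autoImplicit false

noncomputable section

variable {K : Type} [Field K]

lemma single_eq_smul (W : Word) (F : CC K) : (Finsupp.single W F : SM K) = F • wd K W := by
  unfold wd
  rw [Finsupp.smul_single, smul_eq_mul, mul_one]

/-- Induction for states. -/
lemma SM_induction {P : SM K → Prop} (h0 : P 0) (ha : ∀ x y, P x → P y → P (x + y))
    (hs : ∀ (F : CC K) (W : Word), P (F • wd K W)) (x : SM K) : P x := by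
  induction x using Finsupp.induction_linear with
  | zero => exact h0
  | add x y hx hy => exact ha x y hx hy
  | single W F => rw [single_eq_smul]; exact hs F W

/-- Linear maps over `CC K` are determined by their values on words. -/
lemma lin_ext {V : Type} [AddCommMonoid V] [Module (CC K) V] {L L' : SM K →ₗ[CC K] V}
    (h : ∀ W, L (wd K W) = L' (wd K W)) : L = L' := by
  apply LinearMap.ext
  intro x
  induction x using SM_induction with
  | h0 => rw [map_zero, map_zero]
  | ha x y hx hy => rw [map_add, map_add, hx, hy]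
  | hs F W => rw [map_smul, map_smul, h]

lemma lc_wd {V : Type} [AddCommMonoid V] [Module (CC K) V] (f : Word → V) (W : Word) :
    Finsupp.linearCombination (CC K) f (wd K W) = f W := by
  unfold wd
  rw [Finsupp.linearCombination_single, one_smul]

@[simp] lemma mu_wd (V W : Word) : mu K (wd K V) (wd K W) = wd K (V ++ W) := by
  unfold mu
  rw [lc_wd, lc_wd]

lemma ins_wd (V W : Word) :
    ins K (wd K V) (wd K W) = sp (fun X Z => wd K (X ++ (V ++ Z))) W := by
  unfold ins
  rw [lc_wd, lc_wd]

@[simp] lemma xt_wd (t : Bool) (W : Word) : xt K t (wd K W) = wd K (t :: W) := lc_wd _ _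

@[simp] lemma rv_wd (W : Word) : rv K (wd K W) = wd K W.reverse := lc_wd _ _

@[simp] lemma cl_wd (W : Word) : cl K (wd K W) = cy K W := lc_wd _ _

@[simp] lemma cy_nil : cy K [] = 0 := if_pos rfl

lemma cy_of_ne {W : Word} (h : W ≠ []) : cy K W = X (cyc W) := if_neg h

lemma cy_cons (a : Bool) (W : Word) : cy K (a :: W) = X (cyc (a :: W)) :=
  cy_of_ne (List.cons_ne_nil a W)

lemma mu_assoc (x y z : SM K) : mu K (mu K x y) z = mu K x (mu K y z) := by
  induction x using SM_induction with
  | h0 => simp
  | ha x x' hx hx' => simp only [map_add, LinearMap.add_apply, hx, hx']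
  | hs F U =>
    simp only [map_smul, LinearMap.smul_apply]
    congr 1
    induction y using SM_induction with
    | h0 => simp
    | ha x x' hx hx' => simp only [map_add, LinearMap.add_apply, hx, hx']
    | hs F V =>
      simp only [map_smul, LinearMap.smul_apply]
      congr 1
      induction z using SM_induction with
      | h0 => simp
      | ha x x' hx hx' => simp only [map_add, hx, hx']
      | hs F W =>
        simp only [map_smul]
        congr 1
        rw [mu_wd, mu_wd, mu_wd, mu_wd, List.append_assoc]

lemma mu_nil (x : SM K) : mu K (wd K []) x = x := by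
  have h : mu K (wd K []) = LinearMap.id := lin_ext fun W => by simp
  rw [h]
  rfl

lemma xt_eq (t : Bool) (x : SM K) : xt K t x = mu K (wd K [t]) x := by
  have h : xt K t = mu K (wd K [t]) := lin_ext fun W => by simp
  rw [h]

lemma xt_mu (t : Bool) (x y : SM K) : xt K t (mu K x y) = mu K (xt K t x) y := by
  rw [xt_eq, xt_eq, mu_assoc]

lemma cl_mu_comm (x y : SM K) : cl K (mu K x y) = cl K (mu K y x) := by
  induction x using SM_induction with
  | h0 => simp
  | ha x x' hx hx' => simp only [map_add, LinearMap.add_apply, hx, hx']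
  | hs F U =>
    simp only [map_smul, LinearMap.smul_apply]
    congr 1
    induction y using SM_induction with
    | h0 => simp
    | ha x x' hx hx' => simp only [map_add, LinearMap.add_apply, hx, hx']
    | hs F V =>
      simp only [map_smul, LinearMap.smul_apply]
      congr 1
      simp only [mu_wd, cl_wd]
      exact cy_rot K U V

lemma cl_rv (x : SM K) : cl K (rv K x) = cl K x := by
  induction x using SM_induction with
  | h0 => simp
  | ha x x' hx hx' => simp only [map_add, hx, hx']
  | hs F U =>
    simp only [map_smul, rv_wd, cl_wd, cy_rev]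

lemma rv_rv (x : SM K) : rv K (rv K x) = x := by
  induction x using SM_induction with
  | h0 => simp
  | ha x x' hx hx' => simp only [map_add, hx, hx']
  | hs F U => simp

lemma rv_mu (x y : SM K) : rv K (mu K x y) = mu K (rv K y) (rv K x) := by
  induction x using SM_induction with
  | h0 => simp
  | ha x x' hx hx' => simp only [map_add, LinearMap.add_apply, hx, hx']
  | hs F U =>
    simp only [map_smul, LinearMap.smul_apply]
    congr 1
    induction y using SM_induction with
    | h0 => simp
    | ha x x' hx hx' => simp only [map_add, LinearMap.add_apply, hx, hx']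
    | hs F V => simp

/-! ### Operators given on words -/

lemma op_single (g : Word → SM K) (h : Word → CC K →ₗ[K] SM K) (W : Word) (F : CC K) :
    op K g h (Finsupp.single W F) = F • g W + h W F := by
  unfold op
  rw [Finsupp.lsum_single]
  rfl

lemma op_smul_wd (g : Word → SM K) (h : Word → CC K →ₗ[K] SM K) (W : Word) (F : CC K) :
    op K g h (F • wd K W) = F • g W + h W F := by
  rw [← single_eq_smul, op_single]

/-! ### Sums over linearizations -/

section Lin

variable {V V' : Type} [AddCommMonoid V] [Module K V] [AddCommMonoid V'] [Module K V']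

lemma rt_nil (t : Bool) (g : Word → V) : rt t g [] = 0 := rfl

lemma JT_nil (t : Bool) (g : Word → V) : JT K t g [] = 0 := by
  unfold JT
  rw [List.reverse_nil, rt_nil, add_zero, smul_zero]

lemma JS_nil (g : Word → V) : JS K g [] = 0 := by
  unfold JS
  rw [JT_nil, JT_nil, add_zero]

lemma rt_add (t : Bool) (g g' : Word → V) (A : Word) :
    rt t (fun v => g v + g' v) A = rt t g A + rt t g' A := ms_add t _ _ A

lemma JT_add (t : Bool) (g g' : Word → V) (A : Word) :
    JT K t (fun v => g v + g' v) A = JT K t g A + JT K t g' A := by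
  unfold JT
  rw [rt_add, rt_add, ← smul_add, add_add_add_comm]

lemma JS_add (g g' : Word → V) (A : Word) :
    JS K (fun v => g v + g' v) A = JS K g A + JS K g' A := by
  unfold JS
  rw [JT_add, JT_add, add_add_add_comm]

lemma rt_map (L : V →ₗ[K] V') (t : Bool) (g : Word → V) (A : Word) :
    L (rt t g A) = rt t (fun v => L (g v)) A := ms_map L t _ A

lemma JT_map (L : V →ₗ[K] V') (t : Bool) (g : Word → V) (A : Word) :
    L (JT K t g A) = JT K t (fun v => L (g v)) A := by
  unfold JT
  rw [map_smul, map_add, rt_map, rt_map]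

lemma JS_map (L : V →ₗ[K] V') (g : Word → V) (A : Word) :
    L (JS K g A) = JS K (fun v => L (g v)) A := by
  unfold JS
  rw [map_add, JT_map, JT_map]

lemma JT_smul (c : K) (t : Bool) (g : Word → V) (A : Word) :
    JT K t (fun v => c • g v) A = c • JT K t g A :=
  (JT_map (LinearMap.lsmul K V c) t g A).symm

lemma JS_smul (c : K) (g : Word → V) (A : Word) :
    JS K (fun v => c • g v) A = c • JS K g A :=
  (JS_map (LinearMap.lsmul K V c) g A).symm

end Lin

/-- The commutator of `JT` with a map linear over `CC K`. -/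
lemma JT_mapC {V V' : Type} [AddCommGroup V] [Module (CC K) V] [Module K V]
    [IsScalarTower K (CC K) V] [AddCommGroup V'] [Module (CC K) V'] [Module K V']
    [IsScalarTower K (CC K) V'] (L : V →ₗ[CC K] V') (t : Bool) (g : Word → V) (A : Word) :
    L (JT K t g A) = JT K t (fun v => L (g v)) A :=
  JT_map (L.restrictScalars K) t g A

lemma JS_mapC {V V' : Type} [AddCommGroup V] [Module (CC K) V] [Module K V]
    [IsScalarTower K (CC K) V] [AddCommGroup V'] [Module (CC K) V'] [Module K V']
    [IsScalarTower K (CC K) V'] (L : V →ₗ[CC K] V') (g : Word → V) (A : Word) :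
    L (JS K g A) = JS K (fun v => L (g v)) A :=
  JS_map (L.restrictScalars K) g A

/-! ### The derivations -/

lemma Jd_X (t : Bool) (A : Word) :
    Jd K t (X (cyc A)) = JT K t (fun v => wd K (v ++ [t])) A := by
  unfold Jd
  rw [mkDerivation_X]
  rfl

lemma Jd_cy (t : Bool) (A : Word) :
    Jd K t (cy K A) = JT K t (fun v => wd K (v ++ [t])) A := by
  by_cases h : A = []
  · rw [h, cy_nil, map_zero, JT_nil]
  · rw [cy_of_ne h, Jd_X]

lemma Ja_apply (F : CC K) : Ja K F = Jd K false F + Jd K true F := rfl

lemma Ja_X (A : Word) : Ja K (X (cyc A)) = JS K (wd K) A := by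
  rw [Ja_apply, Jd_X, Jd_X]
  rfl

lemma Ja_cy (A : Word) : Ja K (cy K A) = JS K (wd K) A := by
  rw [Ja_apply, Jd_cy, Jd_cy]
  rfl

lemma Jd_mul (t : Bool) (F G : CC K) : Jd K t (F * G) = F • Jd K t G + G • Jd K t F :=
  (Jd K t).leibniz F G

lemma Ja_mul (F G : CC K) : Ja K (F * G) = F • Ja K G + G • Ja K F :=
  (Ja K).leibniz F G

lemma dc_mul (t : Bool) (F G : CC K) : dc K t (F * G) = F * dc K t G + G * dc K t F :=
  (dc K t).leibniz F G

lemma Jd_one (t : Bool) : Jd K t 1 = 0 := (Jd K t).map_one_eq_zero

lemma Ja_one : Ja K 1 = 0 := (Ja K).map_one_eq_zero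

/-! ### The touches -/

lemma T_wd (al : K) (t : Bool) (W : Word) :
    T al t (wd K W) = ms t (fun X Y => cy K (X ++ [t]) • wd K Y +
      (al - 1) • wd K (X.reverse ++ t :: Y)) W := by
  have h := op_smul_wd (K := K) (fun W => ms t (fun X Y => cy K (X ++ [t]) • wd K Y +
      (al - 1) • wd K (X.reverse ++ t :: Y)) W)
    (fun W => al • (((mu K).flip (wd K W)).restrictScalars K ∘ₗ (Jd K t).toLinearMap)) W 1
  rw [one_smul, one_smul] at h
  unfold T
  rw [h, LinearMap.smul_apply, LinearMap.comp_apply]
  change _ + al • ((mu K).flip (wd K W)) (Jd K t 1) = _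
  rw [Jd_one, map_zero, smul_zero, add_zero]

lemma T_smul (al : K) (t : Bool) (F : CC K) (x : SM K) :
    T al t (F • x) = F • T al t x + al • mu K (Jd K t F) x := by
  induction x using SM_induction with
  | h0 => simp
  | ha x y hx hy =>
    simp only [smul_add, map_add, hx, hy]
    abel
  | hs G W =>
    unfold T
    rw [smul_smul, op_smul_wd, op_smul_wd]
    change _ + al • mu K (Jd K t (F * G)) (wd K W) =
      F • (_ + al • mu K (Jd K t G) (wd K W)) + _
    rw [Jd_mul, map_add, map_smul, map_smul, LinearMap.add_apply, LinearMap.smul_apply,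
      LinearMap.smul_apply, map_smul, mul_smul, smul_add, smul_add, smul_comm F al, add_assoc]

lemma Rp_wd (al : K) (W : Word) :
    Rp al (wd K W) = sp (fun X Y => cy K X • wd K Y + (al - 1) • wd K (X.reverse ++ Y)) W := by
  have h := op_smul_wd (K := K) (fun W => sp (fun X Y => cy K X • wd K Y +
      (al - 1) • wd K (X.reverse ++ Y)) W)
    (fun W => al • (((mu K).flip (wd K W)).restrictScalars K ∘ₗ (Ja K).toLinearMap)) W 1
  rw [one_smul, one_smul] at h
  unfold Rp
  rw [h, LinearMap.smul_apply, LinearMap.comp_apply]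
  change _ + al • ((mu K).flip (wd K W)) (Ja K 1) = _
  rw [Ja_one, map_zero, smul_zero, add_zero]

lemma Rp_smul (al : K) (F : CC K) (x : SM K) :
    Rp al (F • x) = F • Rp al x + al • mu K (Ja K F) x := by
  induction x using SM_induction with
  | h0 => simp
  | ha x y hx hy =>
    simp only [smul_add, map_add, hx, hy]
    abel
  | hs G W =>
    unfold Rp
    rw [smul_smul, op_smul_wd, op_smul_wd]
    change _ + al • mu K (Ja K (F * G)) (wd K W) =
      F • (_ + al • mu K (Ja K G) (wd K W)) + _
    rw [Ja_mul, map_add, map_smul, map_smul, LinearMap.add_apply, LinearMap.smul_apply,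
      LinearMap.smul_apply, map_smul, mul_smul, smul_add, smul_add, smul_comm F al, add_assoc]

/-! ### The Laplace operators -/

lemma Dc_apply (al : K) (F : CC K) : Dc al F = (2 : K)⁻¹ • cl K (Rp al (Ja K F)) := rfl

lemma Dc_one (al : K) : Dc al 1 = 0 := by
  rw [Dc_apply, Ja_one, map_zero, map_zero, smul_zero]

lemma Dc_mul [CharZero K] (al : K) (F G : CC K) :
    Dc al (F * G) = F * Dc al G + G * Dc al F + al • cl K (mu K (Ja K F) (Ja K G)) := by
  have h2 : (2 : K) ≠ 0 := two_ne_zero
  have hs : ∀ (c : K) (x : SM K), cl K (c • x) = c • cl K x := fun c x =>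
    ((cl K).restrictScalars K).map_smul c x
  have h3 : ∀ x : CC K, (2 : K)⁻¹ • (al • x) + (2 : K)⁻¹ • (al • x) = al • x := by
    intro x
    rw [← smul_add, ← add_smul, smul_smul, ← two_mul, ← mul_assoc, inv_mul_cancel₀ h2, one_mul]
  rw [Dc_apply, Dc_apply, Dc_apply, Ja_mul, map_add, Rp_smul, Rp_smul, map_add, map_add, map_add,
    (cl K).map_smul F, (cl K).map_smul G, hs, hs, cl_mu_comm (Ja K G) (Ja K F)]
  conv_rhs => rw [← h3 ((cl K) (mu K (Ja K F) (Ja K G)))]
  simp only [smul_add, smul_eq_mul, mul_smul_comm]
  abel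

variable (K) in
/-- The cross term of `Dp`. -/
def cr (F : CC K) : SM K →ₗ[K] SM K :=
  op K 0 (fun W => (Finsupp.lsingle W : CC K →ₗ[K] SM K) ∘ₗ
    (cl K ∘ₗ mu K (Ja K F)).restrictScalars K ∘ₗ (Ja K).toLinearMap)

lemma cr_smul_wd (F G : CC K) (W : Word) :
    cr K F (G • wd K W) = cl K (mu K (Ja K F) (Ja K G)) • wd K W := by
  unfold cr
  rw [op_smul_wd, Pi.zero_apply, smul_zero, zero_add, ← single_eq_smul]
  rfl

lemma cr_wd (F : CC K) (W : Word) : cr K F (wd K W) = 0 := by
  have h := cr_smul_wd F 1 W
  rw [one_smul, Ja_one, map_zero, map_zero, zero_smul] at h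
  exact h

lemma cr_smul (F G : CC K) (x : SM K) :
    cr K F (G • x) = G • cr K F x + cl K (mu K (Ja K F) (Ja K G)) • x := by
  induction x using SM_induction with
  | h0 => simp
  | ha x y hx hy =>
    simp only [smul_add, map_add, hx, hy]
    abel
  | hs H W =>
    rw [smul_smul, cr_smul_wd, cr_smul_wd, Ja_mul, map_add, map_add, map_smul, map_smul, map_smul,
      map_smul, add_smul, smul_smul, smul_smul, smul_eq_mul, smul_eq_mul]
    congr 2
    ring

lemma Dp_wd (al : K) (W : Word) :
    Dp al (wd K W) = sp3 (fun X Y Z => cy K Y • wd K (X ++ Z) +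
      (al - 1) • wd K (X ++ (Y.reverse ++ Z))) W := by
  have h := op_smul_wd (K := K) (fun W => sp3 (fun X Y Z => cy K Y • wd K (X ++ Z) +
      (al - 1) • wd K (X ++ (Y.reverse ++ Z))) W)
    (fun W => al • (((ins K).flip (wd K W)).restrictScalars K ∘ₗ (Ja K).toLinearMap) +
      (Finsupp.lsingle W : CC K →ₗ[K] SM K) ∘ₗ Dc al) W 1
  rw [one_smul, one_smul] at h
  unfold Dp
  rw [h, LinearMap.add_apply, LinearMap.smul_apply, LinearMap.comp_apply]
  change _ + (al • ((ins K).flip (wd K W)) (Ja K 1) + Finsupp.single W (Dc al 1)) = _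
  rw [Ja_one, map_zero, smul_zero, Dc_one, Finsupp.single_zero, add_zero, add_zero]

lemma Dp_smul_wd (al : K) (W : Word) (F : CC K) :
    Dp al (F • wd K W) = F • Dp al (wd K W) + (al • ins K (Ja K F) (wd K W) +
      Dc al F • wd K W) := by
  rw [Dp_wd]
  unfold Dp
  rw [op_smul_wd, ← single_eq_smul W (Dc al F)]
  rfl

lemma Dp_smul [CharZero K] (al : K) (F : CC K) (x : SM K) :
    Dp al (F • x) = F • Dp al x + Dc al F • x + al • ins K (Ja K F) x + al • cr K F x := by
  induction x using SM_induction with
  | h0 => simp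
  | ha x y hx hy =>
    simp only [smul_add, map_add, hx, hy]
    abel
  | hs G W =>
    rw [smul_smul, Dp_smul_wd, Dp_smul_wd, Ja_mul, Dc_mul, cr_smul_wd]
    simp only [map_add, map_smul, LinearMap.add_apply, LinearMap.smul_apply, smul_add, add_smul,
      mul_smul, smul_assoc]
    rw [smul_comm al G, smul_comm al F, smul_comm (Dc al F) G]
    abel

/-! ### Two extension principles -/

/-- An operator which commutes with the cycles and vanishes on words is zero. -/
lemma eq_zero_of_comm (O : SM K →ₗ[K] SM K) (h0 : ∀ W, O (wd K W) = 0)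
    (h1 : ∀ z x, O ((X z : CC K) • x) = (X z : CC K) • O x) (x : SM K) : O x = 0 := by
  induction x using SM_induction with
  | h0 => exact map_zero O
  | ha x y hx hy => rw [map_add, hx, hy, add_zero]
  | hs F W =>
    induction F using MvPolynomial.induction_on with
    | C c =>
      have h : (C c : CC K) • wd K W = c • wd K W := by
        rw [← algebraMap_smul (CC K) c (wd K W)]
        rfl
      rw [h, map_smul, h0, smul_zero]
    | add p q hp hq => rw [add_smul, map_add, hp, hq, add_zero]
    | mul_X p z hp => rw [mul_comm, mul_smul, h1, hp, smul_zero]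

/-- Every generator is of the form `X (cyc A)`. -/
lemma exists_cyc (z : Cyc) : ∃ A, z = cyc A := by
  obtain ⟨A, hA⟩ := Quot.exists_rep z
  exact ⟨A, hA.symm⟩

end

end Pool.Agent.MJW
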