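import Mathlib

/-!
Sums over factorizations of words: `sp` (all factorizations `W = X Y`), `sp1` (`X` nonempty),
`ms t` (`W = X t Y`), `sp3` (`W = X Y Z`).
-/

namespace Pool.Agent.MJW

set_option autoImplicit false

noncomputable section

/-- Words in the letters `false` (colour 0) and `true` (colour 1). -/
abbrev Word := List Bool

variable {V : Type} [AddCommMonoid V]

/-- Sum over all factorizations `W = X Y`. -/
def sp : (Word → Word → V) → Word → V
  | f, [] => f [] []
  | f, a :: W => f [] (a :: W) + sp (fun X Y => f (a :: X) Y) W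

/-- Sum over all factorizations `W = X Y` with `X` nonempty. -/
def sp1 : (Word → Word → V) → Word → V
  | _, [] => 0
  | f, a :: W => sp (fun X Y => f (a :: X) Y) W

/-- Sum over all factorizations `W = X t Y`. -/
def ms (t : Bool) : (Word → Word → V) → Word → V
  | _, [] => 0
  | f, a :: W => (if a = t then f [] W else 0) + ms t (fun X Y => f (a :: X) Y) W

/-- Sum over all factorizations `W = X Y Z`. -/
def sp3 (f : Word → Word → Word → V) (W : Word) : V :=
  sp (fun X V => sp (fun Y Z => f X Y Z) V) W

lemma sp_nil (f : Word → Word → V) : sp f [] = f [] [] := rfl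

lemma sp_cons (f : Word → Word → V) (a : Bool) (W : Word) :
    sp f (a :: W) = f [] (a :: W) + sp (fun X Y => f (a :: X) Y) W := rfl

lemma sp1_nil (f : Word → Word → V) : sp1 f [] = 0 := rfl

lemma sp1_cons (f : Word → Word → V) (a : Bool) (W : Word) :
    sp1 f (a :: W) = sp (fun X Y => f (a :: X) Y) W := rfl

lemma sp_eq (f : Word → Word → V) (W : Word) : sp f W = f [] W + sp1 f W := by
  cases W with
  | nil => rw [sp_nil, sp1_nil, add_zero]
  | cons a W => rfl

lemma ms_nil (t : Bool) (f : Word → Word → V) : ms t f [] = 0 := rfl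

lemma ms_cons (t : Bool) (f : Word → Word → V) (a : Bool) (W : Word) :
    ms t f (a :: W) = (if a = t then f [] W else 0) + ms t (fun X Y => f (a :: X) Y) W := rfl

/-! ### Congruence -/

lemma sp_congr {f g : Word → Word → V} {W : Word} (h : ∀ X Y, X ++ Y = W → f X Y = g X Y) :
    sp f W = sp g W := by
  induction W generalizing f g with
  | nil => exact h [] [] rfl
  | cons a W ih =>
    rw [sp_cons, sp_cons, h [] (a :: W) rfl]
    congr 1
    apply ih
    intro X Y hXY
    exact h (a :: X) Y (by simp [hXY])

lemma sp1_congr {f g : Word → Word → V} {W : Word}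
    (h : ∀ X Y, X ≠ [] → X ++ Y = W → f X Y = g X Y) : sp1 f W = sp1 g W := by
  cases W with
  | nil => rfl
  | cons a W =>
    rw [sp1_cons, sp1_cons]
    apply sp_congr
    intro X Y hXY
    exact h (a :: X) Y (by simp) (by simp [hXY])

lemma ms_congr {t : Bool} {f g : Word → Word → V} {W : Word}
    (h : ∀ X Y, X ++ t :: Y = W → f X Y = g X Y) : ms t f W = ms t g W := by
  induction W generalizing f g with
  | nil => rfl
  | cons a W ih =>
    rw [ms_cons, ms_cons]
    congr 1
    · split_ifs with h1
      · exact h [] W (by simp [h1])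
      · rfl
    · apply ih
      intro X Y hXY
      exact h (a :: X) Y (by simp [hXY])

lemma sp3_congr {f g : Word → Word → Word → V} {W : Word}
    (h : ∀ X Y Z, X ++ (Y ++ Z) = W → f X Y Z = g X Y Z) : sp3 f W = sp3 g W := by
  unfold sp3
  apply sp_congr
  intro X U hU
  apply sp_congr
  intro Y Z hZ
  apply h
  rw [hZ, hU]

/-! ### Linearity -/

lemma sp_add (f g : Word → Word → V) (W : Word) :
    sp (fun X Y => f X Y + g X Y) W = sp f W + sp g W := by
  induction W generalizing f g with
  | nil => rfl
  | cons a W ih => rw [sp_cons, sp_cons, sp_cons, ih, add_add_add_comm]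

lemma sp1_add (f g : Word → Word → V) (W : Word) :
    sp1 (fun X Y => f X Y + g X Y) W = sp1 f W + sp1 g W := by
  cases W with
  | nil => rw [sp1_nil, sp1_nil, sp1_nil, add_zero]
  | cons a W => rw [sp1_cons, sp1_cons, sp1_cons, sp_add]

lemma ms_add (t : Bool) (f g : Word → Word → V) (W : Word) :
    ms t (fun X Y => f X Y + g X Y) W = ms t f W + ms t g W := by
  induction W generalizing f g with
  | nil => rw [ms_nil, ms_nil, ms_nil, add_zero]
  | cons a W ih =>
    rw [ms_cons, ms_cons, ms_cons, ih]
    split_ifs
    · rw [add_add_add_comm]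
    · rw [zero_add, zero_add, zero_add]

lemma sp_zero (W : Word) : sp (fun _ _ => (0 : V)) W = 0 := by
  induction W with
  | nil => rfl
  | cons a W ih => rw [sp_cons, zero_add]; exact ih

lemma sp1_zero (W : Word) : sp1 (fun _ _ => (0 : V)) W = 0 := by
  cases W with
  | nil => rfl
  | cons a W => rw [sp1_cons]; exact sp_zero W

lemma ms_zero (t : Bool) (W : Word) : ms t (fun _ _ => (0 : V)) W = 0 := by
  induction W with
  | nil => rfl
  | cons a W ih => rw [ms_cons, ite_self, zero_add]; exact ih

lemma sp_map {V' : Type} [AddCommMonoid V'] {G : Type} [FunLike G V V'] [AddMonoidHomClass G V V']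
    (L : G) (f : Word → Word → V) (W : Word) :
    L (sp f W) = sp (fun X Y => L (f X Y)) W := by
  induction W generalizing f with
  | nil => rfl
  | cons a W ih => rw [sp_cons, sp_cons, map_add, ih]

lemma sp1_map {V' : Type} [AddCommMonoid V'] {G : Type} [FunLike G V V']
    [AddMonoidHomClass G V V'] (L : G) (f : Word → Word → V) (W : Word) :
    L (sp1 f W) = sp1 (fun X Y => L (f X Y)) W := by
  cases W with
  | nil => rw [sp1_nil, sp1_nil, map_zero]
  | cons a W => rw [sp1_cons, sp1_cons, sp_map]

lemma ms_map {V' : Type} [AddCommMonoid V'] {G : Type} [FunLike G V V'] [AddMonoidHomClass G V V']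
    (L : G) (t : Bool) (f : Word → Word → V) (W : Word) :
    L (ms t f W) = ms t (fun X Y => L (f X Y)) W := by
  induction W generalizing f with
  | nil => rw [ms_nil, ms_nil, map_zero]
  | cons a W ih =>
    rw [ms_cons, ms_cons, map_add, ih]
    congr 1
    split_ifs
    · rfl
    · exact map_zero L

lemma sp3_map {V' : Type} [AddCommMonoid V'] {G : Type} [FunLike G V V']
    [AddMonoidHomClass G V V'] (L : G) (f : Word → Word → Word → V) (W : Word) :
    L (sp3 f W) = sp3 (fun X Y Z => L (f X Y Z)) W := by
  unfold sp3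
  rw [sp_map]
  apply sp_congr
  intro X U _
  rw [sp_map]

lemma sp3_add (f g : Word → Word → Word → V) (W : Word) :
    sp3 (fun X Y Z => f X Y Z + g X Y Z) W = sp3 f W + sp3 g W := by
  unfold sp3
  rw [← sp_add]
  apply sp_congr
  intro X U _
  rw [sp_add]

lemma sp_smul {R : Type} [Monoid R] [DistribMulAction R V] (c : R) (f : Word → Word → V)
    (W : Word) : sp (fun X Y => c • f X Y) W = c • sp f W :=
  (sp_map (DistribSMul.toAddMonoidHom V c) f W).symm

lemma sp1_smul {R : Type} [Monoid R] [DistribMulAction R V] (c : R) (f : Word → Word → V)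
    (W : Word) : sp1 (fun X Y => c • f X Y) W = c • sp1 f W :=
  (sp1_map (DistribSMul.toAddMonoidHom V c) f W).symm

lemma ms_smul {R : Type} [Monoid R] [DistribMulAction R V] (c : R) (t : Bool)
    (f : Word → Word → V) (W : Word) : ms t (fun X Y => c • f X Y) W = c • ms t f W :=
  (ms_map (DistribSMul.toAddMonoidHom V c) t f W).symm

lemma sp3_smul {R : Type} [Monoid R] [DistribMulAction R V] (c : R) (f : Word → Word → Word → V)
    (W : Word) : sp3 (fun X Y Z => c • f X Y Z) W = c • sp3 f W :=
  (sp3_map (DistribSMul.toAddMonoidHom V c) f W).symm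

section Sub

variable {V' : Type} [AddCommGroup V']

lemma sp_neg (f : Word → Word → V') (W : Word) : sp (fun X Y => -f X Y) W = -sp f W :=
  (sp_map (-AddMonoidHom.id V') f W).symm

lemma sp_sub (f g : Word → Word → V') (W : Word) :
    sp (fun X Y => f X Y - g X Y) W = sp f W - sp g W := by
  simp only [sub_eq_add_neg]
  rw [sp_add, sp_neg]

lemma sp1_neg (f : Word → Word → V') (W : Word) : sp1 (fun X Y => -f X Y) W = -sp1 f W :=
  (sp1_map (-AddMonoidHom.id V') f W).symm

lemma sp1_sub (f g : Word → Word → V') (W : Word) :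
    sp1 (fun X Y => f X Y - g X Y) W = sp1 f W - sp1 g W := by
  simp only [sub_eq_add_neg]
  rw [sp1_add, sp1_neg]

lemma ms_neg (t : Bool) (f : Word → Word → V') (W : Word) :
    ms t (fun X Y => -f X Y) W = -ms t f W :=
  (ms_map (-AddMonoidHom.id V') t f W).symm

lemma ms_sub (t : Bool) (f g : Word → Word → V') (W : Word) :
    ms t (fun X Y => f X Y - g X Y) W = ms t f W - ms t g W := by
  simp only [sub_eq_add_neg]
  rw [ms_add, ms_neg]

lemma sp3_neg (f : Word → Word → Word → V') (W : Word) :
    sp3 (fun X Y Z => -f X Y Z) W = -sp3 f W :=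
  (sp3_map (-AddMonoidHom.id V') f W).symm

lemma sp3_sub (f g : Word → Word → Word → V') (W : Word) :
    sp3 (fun X Y Z => f X Y Z - g X Y Z) W = sp3 f W - sp3 g W := by
  simp only [sub_eq_add_neg]
  rw [sp3_add, sp3_neg]

end Sub

/-! ### Products of words -/

lemma sp_append (f : Word → Word → V) (U W : Word) :
    sp f (U ++ W) = sp (fun X Y => f X (Y ++ W)) U + sp1 (fun X Y => f (U ++ X) Y) W := by
  induction U generalizing f with
  | nil => exact sp_eq f W
  | cons a U ih => rw [List.cons_append, sp_cons, sp_cons, ih, add_assoc]; rfl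

lemma sp_mid (f : Word → Word → V) (t : Bool) (U W : Word) :
    sp f (U ++ t :: W) = sp (fun X Y => f X (Y ++ t :: W)) U + sp (fun X Y => f (U ++ t :: X) Y) W := by
  rw [sp_append, sp1_cons]

lemma sp1_append (f : Word → Word → V) (U W : Word) :
    sp1 f (U ++ W) = sp1 (fun X Y => f X (Y ++ W)) U + sp1 (fun X Y => f (U ++ X) Y) W := by
  cases U with
  | nil => rw [sp1_nil, zero_add]; rfl
  | cons a U => rw [List.cons_append, sp1_cons, sp_append, sp1_cons]; rfl

lemma ms_append (t : Bool) (f : Word → Word → V) (U W : Word) :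
    ms t f (U ++ W) = ms t (fun X Y => f X (Y ++ W)) U + ms t (fun X Y => f (U ++ X) Y) W := by
  induction U generalizing f with
  | nil => rw [ms_nil, zero_add]; rfl
  | cons a U ih => rw [List.cons_append, ms_cons, ms_cons, ih, add_assoc]; rfl

lemma ms_mid (s t : Bool) (f : Word → Word → V) (U W : Word) :
    ms t f (U ++ s :: W) = ms t (fun X Y => f X (Y ++ s :: W)) U + (if s = t then f U W else 0) +
      ms t (fun X Y => f (U ++ s :: X) Y) W := by
  rw [ms_append, ms_cons, List.append_nil, add_assoc]

lemma ms_mid_self (t : Bool) (f : Word → Word → V) (U W : Word) :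
    ms t f (U ++ t :: W) = ms t (fun X Y => f X (Y ++ t :: W)) U + f U W +
      ms t (fun X Y => f (U ++ t :: X) Y) W := by
  rw [ms_mid, if_pos rfl]

lemma sp_snoc (f : Word → Word → V) (a : Bool) (W : Word) :
    sp f (W ++ [a]) = sp (fun X Y => f X (Y ++ [a])) W + f (W ++ [a]) [] := by
  rw [sp_append]
  rfl

lemma ms_snoc (t : Bool) (f : Word → Word → V) (a : Bool) (W : Word) :
    ms t f (W ++ [a]) = ms t (fun X Y => f X (Y ++ [a])) W + (if a = t then f W [] else 0) := by
  rw [ms_append, ms_cons, ms_nil, add_zero, List.append_nil]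

/-! ### Reversal -/

lemma sp_reverse (f : Word → Word → V) (W : Word) :
    sp f W.reverse = sp (fun X Y => f Y.reverse X.reverse) W := by
  induction W generalizing f with
  | nil => rfl
  | cons a W ih =>
    rw [List.reverse_cons, sp_snoc, ih, sp_cons, List.reverse_cons, List.reverse_nil, add_comm]
    congr 1
    apply sp_congr
    intro X Y _
    rw [List.reverse_cons]

lemma ms_reverse (t : Bool) (f : Word → Word → V) (W : Word) :
    ms t f W.reverse = ms t (fun X Y => f Y.reverse X.reverse) W := by
  induction W generalizing f with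
  | nil => rfl
  | cons a W ih =>
    rw [List.reverse_cons, ms_snoc, ih, ms_cons, List.reverse_nil, add_comm]
    congr 1
    apply ms_congr
    intro X Y _
    rw [List.reverse_cons]

/-! ### Iterated factorizations -/

/-- `W = X Y Z` -/
lemma sp_sp (g : Word → Word → Word → V) (W : Word) :
    sp (fun X U => sp (fun X1 X2 => g X1 X2 U) X) W = sp3 g W := by
  unfold sp3
  induction W generalizing g with
  | nil => rfl
  | cons a W ih =>
    rw [sp_cons, sp_cons, sp_nil, sp_cons, ← ih (fun X Y Z => g (a :: X) Y Z)]
    have h : sp (fun X U => sp (fun X1 X2 => g X1 X2 U) (a :: X)) W =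
        sp (fun X U => g [] (a :: X) U) W +
          sp (fun X U => sp (fun X1 X2 => g (a :: X1) X2 U) X) W := by
      rw [← sp_add]
      rfl
    rw [h, add_assoc]

/-- `W = X Y t Z` -/
lemma sp_ms (t : Bool) (g : Word → Word → Word → V) (W : Word) :
    sp (fun X U => ms t (fun Y Z => g X Y Z) U) W =
      ms t (fun U Z => sp (fun X Y => g X Y Z) U) W := by
  induction W generalizing g with
  | nil => rfl
  | cons a W ih =>
    rw [sp_cons, ih (fun X Y Z => g (a :: X) Y Z), ms_cons, ms_cons]
    have h : ms t (fun U Z => sp (fun X Y => g X Y Z) (a :: U)) W =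
        ms t (fun U Z => g [] (a :: U) Z) W +
          ms t (fun U Z => sp (fun X Y => g (a :: X) Y Z) U) W := by
      rw [← ms_add]
      rfl
    rw [h, sp_nil, add_assoc]

/-- `W = X t Y Z` -/
lemma ms_sp (t : Bool) (g : Word → Word → Word → V) (W : Word) :
    sp (fun U Z => ms t (fun X Y => g X Y Z) U) W =
      ms t (fun X U => sp (fun Y Z => g X Y Z) U) W := by
  induction W generalizing g with
  | nil => rfl
  | cons a W ih =>
    rw [sp_cons, ms_nil, zero_add, ms_cons, ← ih (fun X Y Z => g (a :: X) Y Z)]
    have h : sp (fun U Z => ms t (fun X Y => g X Y Z) (a :: U)) W =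
        sp (fun U Z => (if a = t then g [] U Z else 0)) W +
          sp (fun U Z => ms t (fun X Y => g (a :: X) Y Z) U) W := by
      rw [← sp_add]
      rfl
    rw [h]
    congr 1
    split_ifs
    · rfl
    · exact sp_zero W

/-- `W = X s Y t Z` -/
lemma ms_ms (s t : Bool) (g : Word → Word → Word → V) (W : Word) :
    ms s (fun X U => ms t (fun Y Z => g X Y Z) U) W =
      ms t (fun U Z => ms s (fun X Y => g X Y Z) U) W := by
  induction W generalizing g with
  | nil => rfl
  | cons a W ih =>
    rw [ms_cons, ih (fun X Y Z => g (a :: X) Y Z), ms_cons, ms_nil, ite_self, zero_add]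
    have h : ms t (fun U Z => ms s (fun X Y => g X Y Z) (a :: U)) W =
        ms t (fun U Z => (if a = s then g [] U Z else 0)) W +
          ms t (fun U Z => ms s (fun X Y => g (a :: X) Y Z) U) W := by
      rw [← ms_add]
      rfl
    rw [h]
    congr 1
    split_ifs
    · rfl
    · exact (ms_zero t W).symm

/-! ### Exchange of sums over two words -/

lemma sp_sp_comm (g : Word → Word → Word → Word → V) (W U : Word) :
    sp (fun X Y => sp (fun P Q => g X Y P Q) U) W =
      sp (fun P Q => sp (fun X Y => g X Y P Q) W) U := by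
  induction U generalizing g with
  | nil => rfl
  | cons a U ih =>
    rw [sp_cons, ← ih (fun X Y P Q => g X Y (a :: P) Q), ← sp_add]
    rfl

lemma sp_ms_comm (t : Bool) (g : Word → Word → Word → Word → V) (W U : Word) :
    sp (fun X Y => ms t (fun P Q => g X Y P Q) U) W =
      ms t (fun P Q => sp (fun X Y => g X Y P Q) W) U := by
  induction U generalizing g with
  | nil => exact sp_zero W
  | cons a U ih =>
    rw [ms_cons, ← ih (fun X Y P Q => g X Y (a :: P) Q)]
    have h : (if a = t then sp (fun X Y => g X Y [] U) W else 0) =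
        sp (fun X Y => if a = t then g X Y [] U else 0) W := by
      split_ifs
      · rfl
      · exact (sp_zero W).symm
    rw [h, ← sp_add]
    rfl

lemma ms_ms_comm (s t : Bool) (g : Word → Word → Word → Word → V) (W U : Word) :
    ms s (fun X Y => ms t (fun P Q => g X Y P Q) U) W =
      ms t (fun P Q => ms s (fun X Y => g X Y P Q) W) U := by
  induction U generalizing g with
  | nil => exact ms_zero s W
  | cons a U ih =>
    rw [ms_cons, ← ih (fun X Y P Q => g X Y (a :: P) Q)]
    have h : (if a = t then ms s (fun X Y => g X Y [] U) W else 0) =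
        ms s (fun X Y => if a = t then g X Y [] U else 0) W := by
      split_ifs
      · rfl
      · exact (ms_zero s W).symm
    rw [h, ← ms_add]
    rfl

/-! ### Splitting according to the colour of a letter -/

/-- `X` nonempty: `X = X' t` -/
lemma sp1_eq_ms (f : Word → Word → V) (W : Word) :
    sp1 f W = ms false (fun X Y => f (X ++ [false]) Y) W +
      ms true (fun X Y => f (X ++ [true]) Y) W := by
  induction W generalizing f with
  | nil => rw [sp1_nil, ms_nil, ms_nil, add_zero]
  | cons a W ih =>
    rw [sp1_cons, sp_eq, ih (fun X Y => f (a :: X) Y), ms_cons, ms_cons]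
    have h : f [a] W = (if a = false then f ([] ++ [false]) W else 0) +
        (if a = true then f ([] ++ [true]) W else 0) := by
      cases a
      · simp
      · simp
    rw [h, add_add_add_comm]
    rfl

/-- `Y` empty or `Y = t Y'` -/
lemma sp_eq_ms (f : Word → Word → V) (W : Word) :
    sp f W = f W [] + (ms false (fun X Y => f X (false :: Y)) W +
      ms true (fun X Y => f X (true :: Y)) W) := by
  induction W generalizing f with
  | nil => rw [sp_nil, ms_nil, ms_nil, add_zero, add_zero]
  | cons a W ih =>
    rw [sp_cons, ih (fun X Y => f (a :: X) Y), ms_cons, ms_cons]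
    have h : f [] (a :: W) = (if a = false then f [] (false :: W) else 0) +
        (if a = true then f [] (true :: W) else 0) := by
      cases a
      · simp
      · simp
    rw [h, add_left_comm, add_add_add_comm]

/-! ### Three factors -/

lemma sp3_cons (f : Word → Word → Word → V) (a : Bool) (W : Word) :
    sp3 f (a :: W) = sp (fun Y Z => f [] Y Z) (a :: W) + sp3 (fun X Y Z => f (a :: X) Y Z) W := rfl

lemma sp3_nil (f : Word → Word → Word → V) : sp3 f [] = f [] [] [] := rfl

lemma sp3_mid (f : Word → Word → Word → V) (t : Bool) (U W : Word) :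
    sp3 f (U ++ t :: W) = sp3 (fun X Y Z => f X Y (Z ++ t :: W)) U +
      sp (fun A C => sp (fun Q Z => f A (C ++ t :: Q) Z) W) U +
      sp3 (fun X Y Z => f (U ++ t :: X) Y Z) W := by
  unfold sp3
  rw [sp_mid]
  congr 1
  rw [← sp_add]
  apply sp_congr
  intro X Y _
  rw [sp_mid]

lemma sp3_reverse (f : Word → Word → Word → V) (W : Word) :
    sp3 f W.reverse = sp3 (fun X Y Z => f Z.reverse Y.reverse X.reverse) W := by
  have h1 : sp3 f W.reverse =
      sp (fun X Y => sp (fun P Q => f Y.reverse P Q) X.reverse) W := by
    unfold sp3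
    rw [sp_reverse]
  rw [h1, ← sp_sp]
  apply sp_congr
  intro X Y _
  rw [sp_reverse]

end

end Pool.Agent.MJW
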