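import Pool.Agent.MJT.AbsB
import Pool.Agent.MJW.Calc

/-!
The word model.  `CC K` is the ring of polynomials in unoriented cyclic words, `SM K` the space
of states with a root word, `T al t` the touches of the letter `t`, `Rp al` all touches of the
front gap, `Dp al` all pairs of gaps.
-/

namespace Pool.Agent.MJW

open MvPolynomial Pool.Agent.MJR

set_option autoImplicit false

noncomputable section

/-- Two words which give the same unoriented cyclic word. -/
inductive CRel : Word → Word → Prop
  | rot (X Y : Word) : CRel (X ++ Y) (Y ++ X)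
  | rev (X : Word) : CRel X X.reverse

/-- Unoriented cyclic words. -/
def Cyc : Type := Quot CRel

/-- The cyclic word of a word. -/
def cyc (W : Word) : Cyc := Quot.mk CRel W

/-- Number of letters. -/
def Cyc.len : Cyc → ℕ := Quot.lift List.length (by
  rintro _ _ (⟨X, Y⟩ | ⟨X⟩)
  · simp [add_comm]
  · simp)

/-- Number of letters 1. -/
def Cyc.ones : Cyc → ℕ := Quot.lift (List.count true) (by
  rintro _ _ (⟨X, Y⟩ | ⟨X⟩)
  · simp [add_comm]
  · simp)

lemma cyc_rot (X Y : Word) : cyc (X ++ Y) = cyc (Y ++ X) := Quot.sound (CRel.rot X Y)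

lemma cyc_rev (X : Word) : cyc X.reverse = cyc X := (Quot.sound (CRel.rev X)).symm

/-- Closed states. -/
abbrev CC (K : Type) [Field K] := MvPolynomial Cyc K

/-- States with a root word. -/
abbrev SM (K : Type) [Field K] := Word →₀ CC K

variable (K : Type) [Field K]

/-- The closed state of a word, zero for the empty word. -/
def cy (W : Word) : CC K := if W = [] then 0 else X (cyc W)

/-- The state of a word. -/
def wd (W : Word) : SM K := Finsupp.single W 1

/-- The product of states, `wd V * wd W = wd (V ++ W)`. -/
def mu : SM K →ₗ[CC K] SM K →ₗ[CC K] SM K :=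
  Finsupp.linearCombination (CC K) fun V => Finsupp.linearCombination (CC K) fun W => wd K (V ++ W)

/-- Insertion, `wd V, wd W ↦ ∑ wd (X ++ V ++ Z)`, sum over `W = X Z`. -/
def ins : SM K →ₗ[CC K] SM K →ₗ[CC K] SM K :=
  Finsupp.linearCombination (CC K) fun V => Finsupp.linearCombination (CC K) fun W =>
    sp (fun X Z => wd K (X ++ (V ++ Z))) W

/-- Adding the letter `t` in front. -/
def xt (t : Bool) : SM K →ₗ[CC K] SM K :=
  Finsupp.linearCombination (CC K) fun W => wd K (t :: W)

/-- Reversal of the root word. -/
def rv : SM K →ₗ[CC K] SM K :=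
  Finsupp.linearCombination (CC K) fun W => wd K W.reverse

/-- Closing the root word. -/
def cl : SM K →ₗ[CC K] CC K := Finsupp.linearCombination (CC K) (cy K)

variable {K}

/-- Sum of `g` over the linearizations `v t` of the cyclic word `A` (in the given orientation). -/
def rt {V : Type} [AddCommMonoid V] (t : Bool) (g : Word → V) (A : Word) : V :=
  ms t (fun X Y => g (Y ++ X)) A

variable (K)

/-- Half the sum of `g` over the linearizations `v t` of the cyclic word `A`, both
orientations. -/
def JT {V : Type} [AddCommMonoid V] [Module K V] (t : Bool) (g : Word → V) (A : Word) : V :=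
  (2 : K)⁻¹ • (rt t g A + rt t g A.reverse)

/-- Half the sum of `g` over all linearizations. -/
def JS {V : Type} [AddCommMonoid V] [Module K V] (g : Word → V) (A : Word) : V :=
  JT K false (fun v => g (v ++ [false])) A + JT K true (fun v => g (v ++ [true])) A

variable {K}

lemma rt_rot {V : Type} [AddCommMonoid V] (t : Bool) (g : Word → V) (A B : Word) :
    rt t g (A ++ B) = rt t g (B ++ A) := by
  unfold rt
  rw [ms_append, ms_append, add_comm]
  congr 1
  · apply ms_congr
    intro X Y _
    rw [List.append_assoc]
  · apply ms_congr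
    intro X Y _
    rw [List.append_assoc]

variable (K)

lemma JT_rot {V : Type} [AddCommMonoid V] [Module K V] (t : Bool) (g : Word → V) (A B : Word) :
    JT K t g (A ++ B) = JT K t g (B ++ A) := by
  unfold JT
  rw [List.reverse_append, List.reverse_append, rt_rot, rt_rot t g B.reverse]

lemma JT_rev {V : Type} [AddCommMonoid V] [Module K V] (t : Bool) (g : Word → V) (A : Word) :
    JT K t g A.reverse = JT K t g A := by
  unfold JT
  rw [List.reverse_reverse, add_comm]

lemma JS_rot {V : Type} [AddCommMonoid V] [Module K V] (g : Word → V) (A B : Word) :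
    JS K g (A ++ B) = JS K g (B ++ A) := by
  unfold JS
  rw [JT_rot, JT_rot K true]

lemma JS_rev {V : Type} [AddCommMonoid V] [Module K V] (g : Word → V) (A : Word) :
    JS K g A.reverse = JS K g A := by
  unfold JS
  rw [JT_rev, JT_rev]

lemma JT_rel {V : Type} [AddCommMonoid V] [Module K V] (t : Bool) (g : Word → V) {A B : Word}
    (h : CRel A B) : JT K t g A = JT K t g B := by
  cases h with
  | rot X Y => exact JT_rot K t g X Y
  | rev => exact (JT_rev K t g A).symm

/-- The linearizations ending with `t` of a cyclic word. -/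
def Jv (t : Bool) (z : Cyc) : SM K :=
  Quot.lift (JT K t (fun v : Word => wd K (v ++ [t]))) (fun _ _ h => JT_rel K t _ h) z

/-- The derivation `J_t`. -/
def Jd (t : Bool) : Derivation K (CC K) (SM K) := mkDerivation K (Jv K t)

/-- The derivation `J`. -/
def Ja : Derivation K (CC K) (SM K) := Jd K false + Jd K true

/-- Operators on `SM K` given by their values on words, `g`, and the derivation part `h`. -/
def op (g : Word → SM K) (h : Word → CC K →ₗ[K] SM K) : SM K →ₗ[K] SM K :=
  Finsupp.lsum K fun W =>
    (LinearMap.toSpanSingleton (CC K) (SM K) (g W)).restrictScalars K + h W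

variable {K}

/-- The touches of the letters `t`. -/
def T (al : K) (t : Bool) : SM K →ₗ[K] SM K :=
  op K (fun W => ms t (fun X Y => cy K (X ++ [t]) • wd K Y +
      (al - 1) • wd K (X.reverse ++ t :: Y)) W)
    (fun W => al • (((mu K).flip (wd K W)).restrictScalars K ∘ₗ (Jd K t).toLinearMap))

/-- All touches (trivial twist included). -/
def Rp (al : K) : SM K →ₗ[K] SM K :=
  op K (fun W => sp (fun X Y => cy K X • wd K Y + (al - 1) • wd K (X.reverse ++ Y)) W)
    (fun W => al • (((mu K).flip (wd K W)).restrictScalars K ∘ₗ (Ja K).toLinearMap))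

/-- The Laplace operator on closed states (trivial twists included). -/
def Dc (al : K) : CC K →ₗ[K] CC K :=
  (2 : K)⁻¹ • ((cl K).restrictScalars K ∘ₗ Rp al ∘ₗ (Ja K).toLinearMap)

/-- All pairs of gaps (trivial twists included). -/
def Dp (al : K) : SM K →ₗ[K] SM K :=
  op K (fun W => sp3 (fun X Y Z => cy K Y • wd K (X ++ Z) +
      (al - 1) • wd K (X ++ (Y.reverse ++ Z))) W)
    (fun W => al • (((ins K).flip (wd K W)).restrictScalars K ∘ₗ (Ja K).toLinearMap) +
      (Finsupp.lsingle W : CC K →ₗ[K] SM K) ∘ₗ Dc al)

variable (K)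

/-- The defect. -/
def Df (t : Bool) : SM K →ₗ[CC K] SM K :=
  Finsupp.linearCombination (CC K) fun W =>
    ms t (fun U V => sp (fun A C => sp (fun Q Z =>
      wd K (Q ++ (A.reverse ++ t :: (C.reverse ++ Z))) -
      wd K (C.reverse ++ (Q.reverse ++ t :: (A ++ Z)))) V) U) W

/-! ### Doubling a letter -/

lemma cy_rot (X Y : Word) : cy K (X ++ Y) = cy K (Y ++ X) := by
  unfold cy
  rw [cyc_rot X Y]
  congr 1
  simp only [List.append_eq_nil_iff, eq_iff_iff]
  tauto

lemma cy_rev (X : Word) : cy K X.reverse = cy K X := by
  unfold cy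
  rw [cyc_rev]
  simp only [List.reverse_eq_nil_iff]

lemma dv_rel (t : Bool) {A B : Word} (h : CRel A B) :
    ms t (fun X Y => cy K (X ++ t :: t :: Y)) A = ms t (fun X Y => cy K (X ++ t :: t :: Y)) B := by
  cases h with
  | rot X Y =>
    rw [ms_append, ms_append, add_comm]
    congr 1
    · apply ms_congr
      intro P Q _
      rw [List.append_assoc, cy_rot K X, List.append_assoc]
      rfl
    · apply ms_congr
      intro P Q _
      rw [List.append_assoc, cy_rot K Y, List.append_assoc]
      rfl
  | rev =>
    rw [ms_reverse]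
    apply ms_congr
    intro P Q _
    rw [← cy_rev]
    congr 1
    simp

/-- Doubling a letter `t` of a cyclic word. -/
def dv (t : Bool) (z : Cyc) : CC K :=
  Quot.lift (ms t fun X Y => cy K (X ++ t :: t :: Y)) (fun _ _ h => dv_rel K t h) z

/-- Doubling a letter `t` of a closed state. -/
def dc (t : Bool) : Derivation K (CC K) (CC K) := mkDerivation K (dv K t)

/-- Doubling a letter `t`. -/
def db (t : Bool) : SM K →ₗ[K] SM K :=
  op K (fun W => ms t (fun X Y => wd K (X ++ t :: t :: Y)) W)
    (fun W => (Finsupp.lsingle W : CC K →ₗ[K] SM K) ∘ₗ (dc K t).toLinearMap)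

/-! ### Gradings -/

/-- The number of letters, or of letters 1, on closed states. -/
def Nc (l : Cyc → ℕ) : Derivation K (CC K) (CC K) := mkDerivation K fun z => (l z : K) • X z

/-- The grading operator on `SM K`. -/
def Ns (l : Cyc → ℕ) (m : Word → ℕ) : SM K →ₗ[K] SM K :=
  op K (fun W => (m W : K) • wd K W)
    (fun W => (Finsupp.lsingle W : CC K →ₗ[K] SM K) ∘ₗ (Nc K l).toLinearMap)

/-- Number of letters. -/
def NL : SM K →ₗ[K] SM K := Ns K Cyc.len List.length

/-- Number of letters 1. -/
def N1 : SM K →ₗ[K] SM K := Ns K Cyc.ones (List.count true)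

/-! ### Forgetting the colours -/

/-- Forgetting the colours of a closed state. -/
def Fc : CC K →ₐ[K] Lam K := aeval fun z => X z.len

/-- Forgetting the colours. -/
def Fw : SM K →ₗ[K] LW K :=
  Finsupp.lsum K fun W => (Polynomial.monomial W.length).restrictScalars K ∘ₗ (Fc K).toLinearMap

end

end Pool.Agent.MJW
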